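import Pool.Agent.J4H48.LA.Stm
set_option autoImplicit false

/-! Project LA (helper48, MP_743d1e_nt), piece BRA. -/

namespace Pool.Agent.J4H57.LA

open Filter Topology
open Pool.Agent.TH826.MK (circ)
open Pool.Agent.J4H48.LA

lemma prod_log {𝕜 : Type*} [NontriviallyNormedField 𝕜] [NormedAlgebra 𝕜 ℂ] {ι : Type*} (S : Finset ι) (f : ι → 𝕜 → ℂ)
    (f' : ι → ℂ) (x : 𝕜) (h : ∀ i ∈ S, HasDerivAt (f i) (f' i) x) (h0 : ∀ i ∈ S, f i x ≠ 0) :
    HasDerivAt (fun y => ∏ i ∈ S, f i y) ((∏ i ∈ S, f i x) * ∑ i ∈ S, f' i / f i x) x := by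
  classical
  induction S using Finset.induction_on with
  | empty => simpa using hasDerivAt_const x (1 : ℂ)
  | insert i S hi ih =>
    have h1 := (h i (Finset.mem_insert_self i S)).mul (ih (fun j hj => h j (Finset.mem_insert_of_mem hj))
      (fun j hj => h0 j (Finset.mem_insert_of_mem hj)))
    have h2 := h0 i (Finset.mem_insert_self i S)
    have e1 : (fun y => ∏ j ∈ insert i S, f j y) = fun y => f i y * ∏ j ∈ S, f j y := by
      funext y
      rw [Finset.prod_insert hi]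
    rw [e1, Finset.prod_insert hi, Finset.sum_insert hi]
    refine h1.congr_deriv ?_
    field_simp

/-- the factors -/
def fac (u v : ℂ) : (ℤ ⊕ ℤ) ⊕ ℤ → ℂ := Sum.elim (Sum.elim (fun a => u + a) (fun b => v + b)) (fun c => u + v + c)

/-- the index set of the factors -/
def SS (A B C : Finset ℤ) : Finset ((ℤ ⊕ ℤ) ⊕ ℤ) := ((insert 0 A).disjSum B).disjSum C

lemma prod_fac {A B C : Finset ℤ} (hA : (0 : ℤ) ∉ A) (u v : ℂ) :
    ∏ i ∈ SS A B C, fac u v i = u * (∏ α ∈ A, (u + (α : ℂ))) * (∏ β ∈ B, (v + (β : ℂ))) * ∏ γ ∈ C, (u + v + (γ : ℂ)) := by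
  unfold SS fac
  rw [Finset.prod_disjSum, Finset.prod_disjSum]
  simp only [Sum.elim_inl, Sum.elim_inr]
  rw [Finset.prod_insert hA]
  simp

lemma card_SS {A B C : Finset ℤ} (hA : (0 : ℤ) ∉ A) : (SS A B C).card = A.card + 1 + B.card + C.card := by
  unfold SS
  rw [Finset.card_disjSum, Finset.card_disjSum, Finset.card_insert_of_notMem hA]

lemma int_norm {a : ℤ} (ha : a ≠ 0) : (1 : ℝ) ≤ |(a : ℝ)| := by
  have : (1 : ℤ) ≤ |a| := Int.one_le_abs ha
  exact_mod_cast this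

lemma norm_low {z : ℂ} {r : ℝ} (hz : ‖z‖ ≤ r) (a : ℤ) : |(a : ℝ)| - r ≤ ‖z + (a : ℂ)‖ := by
  have h1 : ‖(a : ℂ)‖ = |(a : ℝ)| := by
    rw [Complex.norm_intCast]
  have h2 : ‖(a : ℂ)‖ ≤ ‖z + a‖ + ‖z‖ := by
    calc ‖(a : ℂ)‖ = ‖(z + a) - z‖ := by ring_nf
      _ ≤ _ := norm_sub_le _ _
  rw [h1] at h2
  linarith

lemma fac_low {A B C : Finset ℤ} (hB : (0 : ℤ) ∉ B) (hC : (0 : ℤ) ∉ C) {u v : ℂ} (hu : ‖u‖ = 1 / 2)
    (hv : ‖v‖ ≤ 1 / 10) {i : (ℤ ⊕ ℤ) ⊕ ℤ} (hi : i ∈ SS A B C) : 1 / 3 ≤ ‖fac u v i‖ := by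
  unfold SS at hi
  rcases i with (a | b) | c
  · have h1 : a = 0 ∨ a ≠ 0 := em _
    show 1 / 3 ≤ ‖u + (a : ℂ)‖
    rcases h1 with h1 | h1
    · rw [h1]
      simp [hu]
      norm_num
    · have h2 := norm_low hu.le a
      have h3 := int_norm h1
      linarith
  · have hb : b ∈ B := by simpa using hi
    have h1 : b ≠ 0 := fun h => hB (h ▸ hb)
    show 1 / 3 ≤ ‖v + (b : ℂ)‖
    have h2 := norm_low hv b
    have h3 := int_norm h1
    linarith
  · have hc : c ∈ C := by simpa using hi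
    have h1 : c ≠ 0 := fun h => hC (h ▸ hc)
    show 1 / 3 ≤ ‖u + v + (c : ℂ)‖
    have h0 : ‖u + v‖ ≤ 6 / 10 := (norm_add_le _ _).trans (by rw [hu]; linarith)
    have h2 := norm_low h0 c
    have h3 := int_norm h1
    linarith

lemma low (hG : S_GRO) {A B C : Finset ℤ} (hA : (0 : ℤ) ∉ A) (hB : (0 : ℤ) ∉ B) (hC : (0 : ℤ) ∉ C) {κ : ℝ} (hκ : 0 ≤ κ)
    (hκ1 : κ ≤ 1 / 10 ^ 6) (hκC : κ * C.card ≤ 1 / 10 ^ 6) {u v : ℂ} (hu : ‖u‖ = 1 / 2) (hv : ‖v‖ ≤ κ) :
    (5 / 10 ^ 6) * 2 ^ (A.card + B.card + C.card + 2) ≤ ‖∏ i ∈ SS A B C, fac u v i‖ := by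
  rw [prod_fac hA, norm_mul, norm_mul, norm_mul, hu, norm_prod, norm_prod, norm_prod]
  have hA1 : (9 / 256 : ℝ) * 2 ^ A.card ≤ ∏ α ∈ A, ‖u + (α : ℂ)‖ := by
    refine (hG A hA).trans (Finset.prod_le_prod (fun a ha => ?_) fun a _ => ?_)
    · have := int_norm (fun h => hA (h ▸ ha) : a ≠ 0)
      linarith
    · exact norm_low hu.le a
  have hB1 : (9 / 256 : ℝ) * 2 ^ B.card ≤ ∏ β ∈ B, ‖v + (β : ℂ)‖ := by
    refine (hG B hB).trans (Finset.prod_le_prod (fun a ha => ?_) fun a _ => ?_)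
    · have := int_norm (fun h => hB (h ▸ ha) : a ≠ 0)
      linarith
    · exact norm_low (hv.trans (hκ1.trans (by norm_num))) a
  have hC1 : (1 - 2 * (κ * C.card)) * ((9 / 256 : ℝ) * 2 ^ C.card) ≤ ∏ γ ∈ C, ‖u + v + (γ : ℂ)‖ := by
    have h1 : (1 - 2 * κ) ^ C.card * ∏ γ ∈ C, (|(γ : ℝ)| - 1 / 2) ≤ ∏ γ ∈ C, ‖u + v + (γ : ℂ)‖ := by
      rw [← Finset.prod_const, ← Finset.prod_mul_distrib]
      refine Finset.prod_le_prod (fun a ha => ?_) fun a ha => ?_
      · have := int_norm (fun h => hC (h ▸ ha) : a ≠ 0)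
        refine mul_nonneg (by linarith) (by linarith)
      · have h2 := int_norm (fun h => hC (h ▸ ha) : a ≠ 0)
        have h3 : ‖u + v‖ ≤ 1 / 2 + κ := (norm_add_le _ _).trans (by rw [hu]; linarith)
        have h4 := norm_low h3 a
        refine le_trans ?_ h4
        nlinarith
    refine le_trans ?_ h1
    have h5 : 1 - 2 * (κ * C.card) ≤ (1 - 2 * κ) ^ C.card := by
      have := one_add_mul_le_pow (a := -(2 * κ)) (by linarith) C.card
      calc 1 - 2 * (κ * C.card) = 1 + C.card * -(2 * κ) := by ring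
        _ ≤ _ := this
        _ = _ := by ring
    refine mul_le_mul h5 (hG C hC) (by positivity) (pow_nonneg (by linarith) _)
  have hC2 : (99 / 100) * ((9 / 256 : ℝ) * 2 ^ C.card) ≤ ∏ γ ∈ C, ‖u + v + (γ : ℂ)‖ := by
    refine le_trans (mul_le_mul_of_nonneg_right ?_ (by positivity)) hC1
    norm_num at hκC ⊢
    linarith
  calc (5 / 10 ^ 6) * 2 ^ (A.card + B.card + C.card + 2)
      ≤ 1 / 2 * ((9 / 256 : ℝ) * 2 ^ A.card) * ((9 / 256 : ℝ) * 2 ^ B.card) * ((99 / 100) * ((9 / 256 : ℝ) * 2 ^ C.card)) := by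
        have e1 : (5 / 10 ^ 6 : ℝ) * 2 ^ (A.card + B.card + C.card + 2) =
            (5 / 10 ^ 6 * 4) * (2 ^ A.card * 2 ^ B.card * 2 ^ C.card) := by
          rw [pow_add, pow_add, pow_add]
          ring
        have e2 : 1 / 2 * ((9 / 256 : ℝ) * 2 ^ A.card) * ((9 / 256 : ℝ) * 2 ^ B.card) * ((99 / 100) * ((9 / 256 : ℝ) * 2 ^ C.card)) =
            (1 / 2 * (9 / 256) * (9 / 256) * (99 / 100) * (9 / 256)) * (2 ^ A.card * 2 ^ B.card * 2 ^ C.card) := by ring
        rw [e1, e2]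
        refine mul_le_mul_of_nonneg_right ?_ (by positivity)
        norm_num
    _ ≤ _ := by
        gcongr

lemma deriv_circ (s : ℝ) : HasDerivAt (circ (1 / 2)) (2 * Real.pi * Complex.I * circ (1 / 2) s) s := by
  unfold circ
  have h1 : HasDerivAt (fun t : ℝ => (2 * Real.pi * Complex.I * t : ℂ)) (2 * Real.pi * Complex.I * 1) s :=
    (Complex.ofRealCLM.hasDerivAt (x := s)).const_mul _
  have h2 := (h1.cexp).const_mul (((1 / 2 : ℝ)) : ℂ)
  refine h2.congr_deriv ?_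
  ring

theorem t_BRA (hF : S_FIX) (hG : S_GRO) : S_BRA := by
  intro A B C μ n hA hB hC hn hμ
  have hμ0 : 0 < ‖μ‖ := lt_of_lt_of_le (by positivity) hμ
  have hμ1 : μ ≠ 0 := norm_pos_iff.1 hμ0
  have h2n : (n : ℝ) ≤ 2 ^ n := by exact_mod_cast (Nat.lt_two_pow_self (n := n)).le
  have hn2 : (2 : ℝ) ≤ n := by
    have : 2 ≤ n := by omega
    exact_mod_cast this
  obtain ⟨κ, hκ⟩ : ∃ κ : ℝ, κ = 10 ^ 6 / (‖μ‖ * 2 ^ n) := ⟨_, rfl⟩
  have hκ0 : 0 < κ := by rw [hκ]; positivity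
  have hκn : κ * n ≤ 1 / 10 ^ 6 := by
    rw [hκ, div_mul_eq_mul_div, div_le_div_iff₀ (by positivity) (by positivity)]
    have : (10 : ℝ) ^ 12 * n ≤ ‖μ‖ * 2 ^ n := mul_le_mul hμ h2n (by linarith) hμ0.le
    calc (10 : ℝ) ^ 6 * n * 10 ^ 6 = 10 ^ 12 * n := by ring
      _ ≤ _ := this
      _ = _ := by ring
  have hκ1 : κ ≤ 1 / 10 ^ 6 := by nlinarith
  have hcn : (C.card : ℝ) ≤ n := by
    have : C.card ≤ n := by omega
    exact_mod_cast this
  have hκC : κ * C.card ≤ 1 / 10 ^ 6 := (mul_le_mul_of_nonneg_left hcn hκ0.le).trans hκn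
  have hκ3 : κ ≤ 1 / 10 := hκ1.trans (by norm_num)
  have hU : ∀ s, ‖circ (1 / 2) s‖ = 1 / 2 := fun s => Pool.Agent.TH826.MK.norm_circ (by norm_num) s
  have hcard : ((SS A B C).card : ℝ) ≤ n := by
    have : (SS A B C).card ≤ n := by rw [card_SS hA]; omega
    exact_mod_cast this
  have hlow : ∀ s v, ‖v‖ ≤ κ → (5 / 10 ^ 6) * 2 ^ n ≤ ‖∏ i ∈ SS A B C, fac (circ (1 / 2) s) v i‖ := by
    intro s v hv
    have := low hG hA hB hC hκ0.le hκ1 hκC (hU s) hv
    rwa [← hn] at this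
  have hne : ∀ s v, ‖v‖ ≤ κ → ∏ i ∈ SS A B C, fac (circ (1 / 2) s) v i ≠ 0 := by
    intro s v hv h
    have h1 := hlow s v hv
    rw [h, norm_zero] at h1
    have : (0 : ℝ) < (5 / 10 ^ 6) * 2 ^ n := by positivity
    linarith
  have hfl : ∀ s v, ‖v‖ ≤ κ → ∀ i ∈ SS A B C, 1 / 3 ≤ ‖fac (circ (1 / 2) s) v i‖ := fun s v hv i hi =>
    fac_low hB hC (hU s) (hv.trans hκ3) hi
  have hfne : ∀ s v, ‖v‖ ≤ κ → ∀ i ∈ SS A B C, fac (circ (1 / 2) s) v i ≠ 0 := by
    intro s v hv i hi h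
    have h1 := hfl s v hv i hi
    rw [h, norm_zero] at h1
    norm_num at h1
  have hTn : ∀ s v, ‖v‖ ≤ κ → ‖(μ * ∏ i ∈ SS A B C, fac (circ (1 / 2) s) v i)⁻¹‖ ≤ κ / 2 := by
    intro s v hv
    have h1 := hlow s v hv
    rw [norm_inv, norm_mul, hκ]
    have h2 : ‖μ‖ * ((5 / 10 ^ 6) * 2 ^ n) ≤ ‖μ‖ * ‖∏ i ∈ SS A B C, fac (circ (1 / 2) s) v i‖ :=
      mul_le_mul_of_nonneg_left h1 hμ0.le
    refine (inv_anti₀ (by positivity) h2).trans ?_
    rw [inv_eq_one_div, div_div, div_le_div_iff₀ (by positivity) (by positivity)]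
    have h3 : (0 : ℝ) ≤ ‖μ‖ * 2 ^ n := by positivity
    nlinarith
  obtain ⟨V, hV2, hVp, hVn, hVf⟩ := hF (fun s v => (μ * ∏ i ∈ SS A B C, fac (circ (1 / 2) s) v i)⁻¹) κ hκ0 (by
    intro s v hv
    have h1 : ∀ i ∈ SS A B C, ContDiffAt ℝ 2 (fun y : ℝ × ℂ => fac (circ (1 / 2) y.1) y.2 i) (s, v) := by
      intro i _
      have hc : ContDiffAt ℝ 2 (fun y : ℝ × ℂ => circ (1 / 2) y.1) (s, v) :=
        (Pool.Agent.TH826.MK.contDiff_circ (1 / 2)).contDiffAt.comp (s, v) contDiffAt_fst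
      rcases i with (a | b) | c
      · exact hc.add contDiffAt_const
      · exact contDiffAt_snd.add contDiffAt_const
      · exact (hc.add contDiffAt_snd).add contDiffAt_const
    exact (contDiffAt_const.mul (contDiffAt_prod h1)).inv (mul_ne_zero hμ1 (hne s v hv.le))) hTn (by
    intro s v v' hv hv'
    have h1 : ∀ x ∈ Metric.closedBall (0 : ℂ) κ, HasDerivWithinAt (fun v => (μ * ∏ i ∈ SS A B C, fac (circ (1 / 2) s) v i)⁻¹)
        (-(μ * ((∏ i ∈ SS A B C, fac (circ (1 / 2) s) x i) * ∑ i ∈ SS A B C,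
          (Sum.elim (Sum.elim (fun _ => 0) (fun _ => 1)) (fun _ => 1) i : ℂ) / fac (circ (1 / 2) s) x i)) /
          (μ * ∏ i ∈ SS A B C, fac (circ (1 / 2) s) x i) ^ 2) (Metric.closedBall (0 : ℂ) κ) x := by
      intro x hx
      rw [mem_closedBall_zero_iff] at hx
      refine HasDerivAt.hasDerivWithinAt (HasDerivAt.inv (HasDerivAt.const_mul μ (prod_log (SS A B C)
        (fun i v => fac (circ (1 / 2) s) v i) (fun i => Sum.elim (Sum.elim (fun _ => 0) (fun _ => 1)) (fun _ => 1) i) x ?_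
        (hfne s x hx))) (mul_ne_zero hμ1 (hne s x hx)))
      intro i _
      rcases i with (a | b) | c
      · exact hasDerivAt_const _ _
      · exact (hasDerivAt_id x).add_const _
      · exact ((hasDerivAt_id x).const_add _).add_const _
    have h2 := Convex.norm_image_sub_le_of_norm_hasDerivWithin_le (C := 1 / 2) h1 (by
      intro x hx
      rw [mem_closedBall_zero_iff] at hx
      have e1 := hne s x hx
      have e2 : -(μ * ((∏ i ∈ SS A B C, fac (circ (1 / 2) s) x i) * ∑ i ∈ SS A B C,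
          (Sum.elim (Sum.elim (fun _ => 0) (fun _ => 1)) (fun _ => 1) i : ℂ) / fac (circ (1 / 2) s) x i)) /
          (μ * ∏ i ∈ SS A B C, fac (circ (1 / 2) s) x i) ^ 2 =
          -((μ * ∏ i ∈ SS A B C, fac (circ (1 / 2) s) x i)⁻¹ * ∑ i ∈ SS A B C,
            (Sum.elim (Sum.elim (fun _ => 0) (fun _ => 1)) (fun _ => 1) i : ℂ) / fac (circ (1 / 2) s) x i) := by
        generalize (∑ i ∈ SS A B C, (Sum.elim (Sum.elim (fun _ => 0) (fun _ => 1)) (fun _ => 1) i : ℂ) /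
          fac (circ (1 / 2) s) x i) = σ
        generalize (∏ i ∈ SS A B C, fac (circ (1 / 2) s) x i) = π' at e1 ⊢
        field_simp
      rw [e2, norm_neg, norm_mul]
      have e3 : ‖∑ i ∈ SS A B C, (Sum.elim (Sum.elim (fun _ => 0) (fun _ => 1)) (fun _ => 1) i : ℂ) /
          fac (circ (1 / 2) s) x i‖ ≤ n * 3 := by
        refine (norm_sum_le_of_le (SS A B C) (f := fun i => (Sum.elim (Sum.elim (fun _ => 0) (fun _ => 1)) (fun _ => 1) i : ℂ) /
          fac (circ (1 / 2) s) x i) (n := fun _ => 3) fun i hi => ?_).trans ?_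
        · have e4 := hfl s x hx i hi
          have e5 : ‖(Sum.elim (Sum.elim (fun _ => 0) (fun _ => 1)) (fun _ => 1) i : ℂ)‖ ≤ 1 := by
            rcases i with (a | b) | c <;> simp
          rw [norm_div, div_le_iff₀ (by linarith)]
          linarith
        · rw [Finset.sum_const, nsmul_eq_mul]
          exact mul_le_mul_of_nonneg_right hcard (by norm_num)
      have e6 := hTn s x hx
      calc _ ≤ κ / 2 * (n * 3) := mul_le_mul e6 e3 (norm_nonneg _) (by positivity)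
        _ = 3 / 2 * (κ * n) := by ring
        _ ≤ 3 / 2 * (1 / 10 ^ 6) := mul_le_mul_of_nonneg_left hκn (by norm_num)
        _ ≤ 1 / 2 := by norm_num) (convex_closedBall 0 κ) (mem_closedBall_zero_iff.2 hv') (mem_closedBall_zero_iff.2 hv)
    linarith) (by
    intro s v _
    simp only [Pool.Agent.TH826.MK.circ_add_one])
  have hVκ : ∀ s, ‖V s‖ ≤ κ := fun s => by have := hVn s; linarith
  have hid : ∀ s, μ * (∏ i ∈ SS A B C, fac (circ (1 / 2) s) (V s) i) * V s = 1 := by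
    intro s
    have h1 := hVf s
    have h2 : μ * (∏ i ∈ SS A B C, fac (circ (1 / 2) s) (V s) i) ≠ 0 := mul_ne_zero hμ1 (hne s _ (hVκ s))
    calc μ * (∏ i ∈ SS A B C, fac (circ (1 / 2) s) (V s) i) * V s =
        μ * (∏ i ∈ SS A B C, fac (circ (1 / 2) s) (V s) i) * (μ * ∏ i ∈ SS A B C, fac (circ (1 / 2) s) (V s) i)⁻¹ := by rw [h1]
      _ = 1 := mul_inv_cancel₀ h2
  refine ⟨V, hV2, hVp, fun s => ?_, fun s => by rw [← hκ]; exact hVκ s, fun s => ?_⟩
  · have := hid s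
    rw [prod_fac hA] at this
    rw [← this]
    ring
  · rw [← hκ]
    have hVd : HasDerivAt V (deriv V s) s := (hV2.differentiable (by norm_num) s).hasDerivAt
    obtain ⟨f', hf'⟩ : ∃ f' : (ℤ ⊕ ℤ) ⊕ ℤ → ℂ, f' = Sum.elim (Sum.elim (fun _ => 2 * Real.pi * Complex.I * circ (1 / 2) s)
      (fun _ => deriv V s)) (fun _ => 2 * Real.pi * Complex.I * circ (1 / 2) s + deriv V s) := ⟨_, rfl⟩
    have h1 : HasDerivAt (fun x => ∏ i ∈ SS A B C, fac (circ (1 / 2) x) (V x) i)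
        ((∏ i ∈ SS A B C, fac (circ (1 / 2) s) (V s) i) * ∑ i ∈ SS A B C, f' i / fac (circ (1 / 2) s) (V s) i) s := by
      refine prod_log (SS A B C) (fun i x => fac (circ (1 / 2) x) (V x) i) f' s ?_ (hfne s _ (hVκ s))
      intro i _
      rw [hf']
      rcases i with (a | b) | c
      · exact (deriv_circ s).add_const _
      · exact hVd.add_const _
      · exact ((deriv_circ s).add hVd).add_const _
    have h2 := (h1.const_mul μ).mul hVd
    have h3 : HasDerivAt (fun x => μ * (∏ i ∈ SS A B C, fac (circ (1 / 2) x) (V x) i) * V x) 0 s := by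
      have : (fun x => μ * (∏ i ∈ SS A B C, fac (circ (1 / 2) x) (V x) i) * V x) = fun _ => 1 := funext hid
      rw [this]
      exact hasDerivAt_const _ _
    have h4 := h2.unique h3
    have e1 := hne s _ (hVκ s)
    have h5 : deriv V s = -(V s * ∑ i ∈ SS A B C, f' i / fac (circ (1 / 2) s) (V s) i) := by
      generalize (∑ i ∈ SS A B C, f' i / fac (circ (1 / 2) s) (V s) i) = σ at h4 ⊢
      generalize (∏ i ∈ SS A B C, fac (circ (1 / 2) s) (V s) i) = π' at e1 h4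
      have h6 : μ * π' * (V s * σ + deriv V s) = 0 := by
        rw [← h4]
        ring
      have h7 := (mul_eq_zero.1 h6).resolve_left (mul_ne_zero hμ1 e1)
      exact eq_neg_of_add_eq_zero_right h7
    have hU' : ‖2 * Real.pi * Complex.I * circ (1 / 2) s‖ = Real.pi := by
      rw [norm_mul, hU, norm_mul, norm_mul, Complex.norm_I, Complex.norm_real, Real.norm_eq_abs, abs_of_pos Real.pi_pos]
      norm_num
      ring
    have h8 : ‖∑ i ∈ SS A B C, f' i / fac (circ (1 / 2) s) (V s) i‖ ≤ n * (3 * (Real.pi + ‖deriv V s‖)) := by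
      refine (norm_sum_le_of_le (SS A B C) (f := fun i => f' i / fac (circ (1 / 2) s) (V s) i)
        (n := fun _ => 3 * (Real.pi + ‖deriv V s‖)) fun i hi => ?_).trans ?_
      · have e4 := hfl s _ (hVκ s) i hi
        have hp := Real.pi_pos
        have e5 : ‖f' i‖ ≤ Real.pi + ‖deriv V s‖ := by
          rw [hf']
          rcases i with (a | b) | c
          · show ‖2 * Real.pi * Complex.I * circ (1 / 2) s‖ ≤ _
            rw [hU']
            linarith [norm_nonneg (deriv V s)]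
          · show ‖deriv V s‖ ≤ _
            linarith
          · show ‖2 * Real.pi * Complex.I * circ (1 / 2) s + deriv V s‖ ≤ _
            refine (norm_add_le _ _).trans ?_
            rw [hU']
        have e7 : 0 ≤ Real.pi + ‖deriv V s‖ := by positivity
        rw [norm_div, div_le_iff₀ (by linarith)]
        nlinarith
      · rw [Finset.sum_const, nsmul_eq_mul]
        exact mul_le_mul_of_nonneg_right hcard (by positivity)
    have h9 : ‖deriv V s‖ ≤ κ / 2 * (n * (3 * (Real.pi + ‖deriv V s‖))) := by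
      calc ‖deriv V s‖ = ‖V s‖ * ‖∑ i ∈ SS A B C, f' i / fac (circ (1 / 2) s) (V s) i‖ := by
            conv_lhs => rw [h5]
            rw [norm_neg, norm_mul]
        _ ≤ _ := mul_le_mul (hVn s) h8 (norm_nonneg _) (by positivity)
    have h10 : κ / 2 * (n * (3 * (Real.pi + ‖deriv V s‖))) = 3 / 2 * (κ * n) * Real.pi + 3 / 2 * (κ * n) * ‖deriv V s‖ := by ring
    rw [h10] at h9
    have hp4 := Real.pi_lt_four
    have hkn0 : 0 ≤ κ * n := by positivity
    have h11 : 3 / 2 * (κ * n) * ‖deriv V s‖ ≤ 1 / 10 * ‖deriv V s‖ := by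
      refine mul_le_mul_of_nonneg_right ?_ (norm_nonneg _)
      norm_num at hκn ⊢
      linarith
    have h12 : 3 / 2 * (κ * n) * Real.pi ≤ 3 / 2 * (κ * n) * 4 := mul_le_mul_of_nonneg_left hp4.le (by positivity)
    have h13 : 10 * n * κ = 10 * (κ * n) := by ring
    rw [h13]
    linarith

end Pool.Agent.J4H57.LA
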