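import Pool.Agent.J4H48.LA.Stm2
import Pool.Agent.J4H57.LA.Bra
set_option autoImplicit false

/-! Project LA (helper48, MP_743d1e_nt), version 2, piece BRA2. -/

namespace Pool.Agent.J4H57.LA

open Filter Topology
open Pool.Agent.TH826.MK (circ)
open Pool.Agent.J4H48.LA

theorem t_BRA2 (hF : S_FIX) (hG : S_GRO) : S_BRA2 := by
  intro A B C μ n hA hB hC hn hμ1 hμκ
  have hμ0 : 0 < ‖μ‖ := norm_pos_iff.2 hμ1
  have hn2 : (2 : ℝ) ≤ n := by
    have : 2 ≤ n := by omega
    exact_mod_cast this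
  obtain ⟨κ, hκ⟩ : ∃ κ : ℝ, κ = 10 ^ 6 / (‖μ‖ * 2 ^ n) := ⟨_, rfl⟩
  have hκ0 : 0 < κ := by rw [hκ]; positivity
  have hκn : κ * n ≤ 1 / 10 ^ 6 := by
    rw [hκ, mul_comm]
    exact hμκ
  have hκ1 : κ ≤ 1 / 10 ^ 6 := by nlinarith
  have hcn : (C.card : ℝ) ≤ n := by
    have : C.card ≤ n := by omega
    exact_mod_cast this
  have hκC : κ * C.card ≤ 1 / 10 ^ 6 := (mul_le_mul_of_nonneg_left hcn hκ0.le).trans hκn
  have hκ3 : κ ≤ 1 / 10 := hκ1.trans (by norm_num)
  have hU : ∀ s, ‖circ (1 / 2) s‖ = 1 / 2 := fun s => Pool.Agent.TH826.MK.norm_circ (by norm_num) s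
  have hcard : ((SS A B C).card : ℝ) ≤ n := by
    have : (SS A B C).card ≤ n := by rw [card_SS hA]; omega
    exact_mod_cast this
  have hlow : ∀ s v, ‖v‖ ≤ κ → (5 / 10 ^ 6) * 2 ^ n ≤ ‖∏ i ∈ SS A B C, fac (circ (1 / 2) s) v i‖ := by
    intro s v hv
    have := low hG hA hB hC hκ0.le hκ1 hκC (hU s) hv
    rwa [← hn] at this
  have hne : ∀ s v, ‖v‖ ≤ κ → ∏ i ∈ SS A B C, fac (circ (1 / 2) s) v i ≠ 0 := by
    intro s v hv h
    have h1 := hlow s v hv
    rw [h, norm_zero] at h1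
    have : (0 : ℝ) < (5 / 10 ^ 6) * 2 ^ n := by positivity
    linarith
  have hfl : ∀ s v, ‖v‖ ≤ κ → ∀ i ∈ SS A B C, 1 / 3 ≤ ‖fac (circ (1 / 2) s) v i‖ := fun s v hv i hi =>
    fac_low hB hC (hU s) (hv.trans hκ3) hi
  have hfne : ∀ s v, ‖v‖ ≤ κ → ∀ i ∈ SS A B C, fac (circ (1 / 2) s) v i ≠ 0 := by
    intro s v hv i hi h
    have h1 := hfl s v hv i hi
    rw [h, norm_zero] at h1
    norm_num at h1
  have hTn : ∀ s v, ‖v‖ ≤ κ → ‖(μ * ∏ i ∈ SS A B C, fac (circ (1 / 2) s) v i)⁻¹‖ ≤ κ / 2 := by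
    intro s v hv
    have h1 := hlow s v hv
    rw [norm_inv, norm_mul, hκ]
    have h2 : ‖μ‖ * ((5 / 10 ^ 6) * 2 ^ n) ≤ ‖μ‖ * ‖∏ i ∈ SS A B C, fac (circ (1 / 2) s) v i‖ :=
      mul_le_mul_of_nonneg_left h1 hμ0.le
    refine (inv_anti₀ (by positivity) h2).trans ?_
    rw [inv_eq_one_div, div_div, div_le_div_iff₀ (by positivity) (by positivity)]
    have h3 : (0 : ℝ) ≤ ‖μ‖ * 2 ^ n := by positivity
    nlinarith
  obtain ⟨V, hV2, hVp, hVn, hVf⟩ := hF (fun s v => (μ * ∏ i ∈ SS A B C, fac (circ (1 / 2) s) v i)⁻¹) κ hκ0 (by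
    intro s v hv
    have h1 : ∀ i ∈ SS A B C, ContDiffAt ℝ 2 (fun y : ℝ × ℂ => fac (circ (1 / 2) y.1) y.2 i) (s, v) := by
      intro i _
      have hc : ContDiffAt ℝ 2 (fun y : ℝ × ℂ => circ (1 / 2) y.1) (s, v) :=
        (Pool.Agent.TH826.MK.contDiff_circ (1 / 2)).contDiffAt.comp (s, v) contDiffAt_fst
      rcases i with (a | b) | c
      · exact hc.add contDiffAt_const
      · exact contDiffAt_snd.add contDiffAt_const
      · exact (hc.add contDiffAt_snd).add contDiffAt_const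
    exact (contDiffAt_const.mul (contDiffAt_prod h1)).inv (mul_ne_zero hμ1 (hne s v hv.le))) hTn (by
    intro s v v' hv hv'
    have h1 : ∀ x ∈ Metric.closedBall (0 : ℂ) κ, HasDerivWithinAt (fun v => (μ * ∏ i ∈ SS A B C, fac (circ (1 / 2) s) v i)⁻¹)
        (-(μ * ((∏ i ∈ SS A B C, fac (circ (1 / 2) s) x i) * ∑ i ∈ SS A B C,
          (Sum.elim (Sum.elim (fun _ => 0) (fun _ => 1)) (fun _ => 1) i : ℂ) / fac (circ (1 / 2) s) x i)) /
          (μ * ∏ i ∈ SS A B C, fac (circ (1 / 2) s) x i) ^ 2) (Metric.closedBall (0 : ℂ) κ) x := by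
      intro x hx
      rw [mem_closedBall_zero_iff] at hx
      refine HasDerivAt.hasDerivWithinAt (HasDerivAt.inv (HasDerivAt.const_mul μ (prod_log (SS A B C)
        (fun i v => fac (circ (1 / 2) s) v i) (fun i => Sum.elim (Sum.elim (fun _ => 0) (fun _ => 1)) (fun _ => 1) i) x ?_
        (hfne s x hx))) (mul_ne_zero hμ1 (hne s x hx)))
      intro i _
      rcases i with (a | b) | c
      · exact hasDerivAt_const _ _
      · exact (hasDerivAt_id x).add_const _
      · exact ((hasDerivAt_id x).const_add _).add_const _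
    have h2 := Convex.norm_image_sub_le_of_norm_hasDerivWithin_le (C := 1 / 2) h1 (by
      intro x hx
      rw [mem_closedBall_zero_iff] at hx
      have e1 := hne s x hx
      have e2 : -(μ * ((∏ i ∈ SS A B C, fac (circ (1 / 2) s) x i) * ∑ i ∈ SS A B C,
          (Sum.elim (Sum.elim (fun _ => 0) (fun _ => 1)) (fun _ => 1) i : ℂ) / fac (circ (1 / 2) s) x i)) /
          (μ * ∏ i ∈ SS A B C, fac (circ (1 / 2) s) x i) ^ 2 =
          -((μ * ∏ i ∈ SS A B C, fac (circ (1 / 2) s) x i)⁻¹ * ∑ i ∈ SS A B C,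
            (Sum.elim (Sum.elim (fun _ => 0) (fun _ => 1)) (fun _ => 1) i : ℂ) / fac (circ (1 / 2) s) x i) := by
        generalize (∑ i ∈ SS A B C, (Sum.elim (Sum.elim (fun _ => 0) (fun _ => 1)) (fun _ => 1) i : ℂ) /
          fac (circ (1 / 2) s) x i) = σ
        generalize (∏ i ∈ SS A B C, fac (circ (1 / 2) s) x i) = π' at e1 ⊢
        field_simp
      rw [e2, norm_neg, norm_mul]
      have e3 : ‖∑ i ∈ SS A B C, (Sum.elim (Sum.elim (fun _ => 0) (fun _ => 1)) (fun _ => 1) i : ℂ) /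
          fac (circ (1 / 2) s) x i‖ ≤ n * 3 := by
        refine (norm_sum_le_of_le (SS A B C) (f := fun i => (Sum.elim (Sum.elim (fun _ => 0) (fun _ => 1)) (fun _ => 1) i : ℂ) /
          fac (circ (1 / 2) s) x i) (n := fun _ => 3) fun i hi => ?_).trans ?_
        · have e4 := hfl s x hx i hi
          have e5 : ‖(Sum.elim (Sum.elim (fun _ => 0) (fun _ => 1)) (fun _ => 1) i : ℂ)‖ ≤ 1 := by
            rcases i with (a | b) | c <;> simp
          rw [norm_div, div_le_iff₀ (by linarith)]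
          linarith
        · rw [Finset.sum_const, nsmul_eq_mul]
          exact mul_le_mul_of_nonneg_right hcard (by norm_num)
      have e6 := hTn s x hx
      calc _ ≤ κ / 2 * (n * 3) := mul_le_mul e6 e3 (norm_nonneg _) (by positivity)
        _ = 3 / 2 * (κ * n) := by ring
        _ ≤ 3 / 2 * (1 / 10 ^ 6) := mul_le_mul_of_nonneg_left hκn (by norm_num)
        _ ≤ 1 / 2 := by norm_num) (convex_closedBall 0 κ) (mem_closedBall_zero_iff.2 hv') (mem_closedBall_zero_iff.2 hv)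
    linarith) (by
    intro s v _
    simp only [Pool.Agent.TH826.MK.circ_add_one])
  have hVκ : ∀ s, ‖V s‖ ≤ κ := fun s => by have := hVn s; linarith
  have hid : ∀ s, μ * (∏ i ∈ SS A B C, fac (circ (1 / 2) s) (V s) i) * V s = 1 := by
    intro s
    have h1 := hVf s
    have h2 : μ * (∏ i ∈ SS A B C, fac (circ (1 / 2) s) (V s) i) ≠ 0 := mul_ne_zero hμ1 (hne s _ (hVκ s))
    calc μ * (∏ i ∈ SS A B C, fac (circ (1 / 2) s) (V s) i) * V s =
        μ * (∏ i ∈ SS A B C, fac (circ (1 / 2) s) (V s) i) * (μ * ∏ i ∈ SS A B C, fac (circ (1 / 2) s) (V s) i)⁻¹ := by rw [h1]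
      _ = 1 := mul_inv_cancel₀ h2
  refine ⟨V, hV2, hVp, fun s => ?_, fun s => by rw [← hκ]; exact hVκ s, fun s => ?_⟩
  · have := hid s
    rw [prod_fac hA] at this
    rw [← this]
    ring
  · rw [← hκ]
    have hVd : HasDerivAt V (deriv V s) s := (hV2.differentiable (by norm_num) s).hasDerivAt
    obtain ⟨f', hf'⟩ : ∃ f' : (ℤ ⊕ ℤ) ⊕ ℤ → ℂ, f' = Sum.elim (Sum.elim (fun _ => 2 * Real.pi * Complex.I * circ (1 / 2) s)
      (fun _ => deriv V s)) (fun _ => 2 * Real.pi * Complex.I * circ (1 / 2) s + deriv V s) := ⟨_, rfl⟩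
    have h1 : HasDerivAt (fun x => ∏ i ∈ SS A B C, fac (circ (1 / 2) x) (V x) i)
        ((∏ i ∈ SS A B C, fac (circ (1 / 2) s) (V s) i) * ∑ i ∈ SS A B C, f' i / fac (circ (1 / 2) s) (V s) i) s := by
      refine prod_log (SS A B C) (fun i x => fac (circ (1 / 2) x) (V x) i) f' s ?_ (hfne s _ (hVκ s))
      intro i _
      rw [hf']
      rcases i with (a | b) | c
      · exact (deriv_circ s).add_const _
      · exact hVd.add_const _
      · exact ((deriv_circ s).add hVd).add_const _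
    have h2 := (h1.const_mul μ).mul hVd
    have h3 : HasDerivAt (fun x => μ * (∏ i ∈ SS A B C, fac (circ (1 / 2) x) (V x) i) * V x) 0 s := by
      have : (fun x => μ * (∏ i ∈ SS A B C, fac (circ (1 / 2) x) (V x) i) * V x) = fun _ => 1 := funext hid
      rw [this]
      exact hasDerivAt_const _ _
    have h4 := h2.unique h3
    have e1 := hne s _ (hVκ s)
    have h5 : deriv V s = -(V s * ∑ i ∈ SS A B C, f' i / fac (circ (1 / 2) s) (V s) i) := by
      generalize (∑ i ∈ SS A B C, f' i / fac (circ (1 / 2) s) (V s) i) = σ at h4 ⊢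
      generalize (∏ i ∈ SS A B C, fac (circ (1 / 2) s) (V s) i) = π' at e1 h4
      have h6 : μ * π' * (V s * σ + deriv V s) = 0 := by
        rw [← h4]
        ring
      have h7 := (mul_eq_zero.1 h6).resolve_left (mul_ne_zero hμ1 e1)
      exact eq_neg_of_add_eq_zero_right h7
    have hU' : ‖2 * Real.pi * Complex.I * circ (1 / 2) s‖ = Real.pi := by
      rw [norm_mul, hU, norm_mul, norm_mul, Complex.norm_I, Complex.norm_real, Real.norm_eq_abs, abs_of_pos Real.pi_pos]
      norm_num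
      ring
    have h8 : ‖∑ i ∈ SS A B C, f' i / fac (circ (1 / 2) s) (V s) i‖ ≤ n * (3 * (Real.pi + ‖deriv V s‖)) := by
      refine (norm_sum_le_of_le (SS A B C) (f := fun i => f' i / fac (circ (1 / 2) s) (V s) i)
        (n := fun _ => 3 * (Real.pi + ‖deriv V s‖)) fun i hi => ?_).trans ?_
      · have e4 := hfl s _ (hVκ s) i hi
        have hp := Real.pi_pos
        have e5 : ‖f' i‖ ≤ Real.pi + ‖deriv V s‖ := by
          rw [hf']
          rcases i with (a | b) | c
          · show ‖2 * Real.pi * Complex.I * circ (1 / 2) s‖ ≤ _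
            rw [hU']
            linarith [norm_nonneg (deriv V s)]
          · show ‖deriv V s‖ ≤ _
            linarith
          · show ‖2 * Real.pi * Complex.I * circ (1 / 2) s + deriv V s‖ ≤ _
            refine (norm_add_le _ _).trans ?_
            rw [hU']
        have e7 : 0 ≤ Real.pi + ‖deriv V s‖ := by positivity
        rw [norm_div, div_le_iff₀ (by linarith)]
        nlinarith
      · rw [Finset.sum_const, nsmul_eq_mul]
        exact mul_le_mul_of_nonneg_right hcard (by positivity)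
    have h9 : ‖deriv V s‖ ≤ κ / 2 * (n * (3 * (Real.pi + ‖deriv V s‖))) := by
      calc ‖deriv V s‖ = ‖V s‖ * ‖∑ i ∈ SS A B C, f' i / fac (circ (1 / 2) s) (V s) i‖ := by
            conv_lhs => rw [h5]
            rw [norm_neg, norm_mul]
        _ ≤ _ := mul_le_mul (hVn s) h8 (norm_nonneg _) (by positivity)
    have h10 : κ / 2 * (n * (3 * (Real.pi + ‖deriv V s‖))) = 3 / 2 * (κ * n) * Real.pi + 3 / 2 * (κ * n) * ‖deriv V s‖ := by ring
    rw [h10] at h9
    have hp4 := Real.pi_lt_four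
    have hkn0 : 0 ≤ κ * n := by positivity
    have h11 : 3 / 2 * (κ * n) * ‖deriv V s‖ ≤ 1 / 10 * ‖deriv V s‖ := by
      refine mul_le_mul_of_nonneg_right ?_ (norm_nonneg _)
      norm_num at hκn ⊢
      linarith
    have h12 : 3 / 2 * (κ * n) * Real.pi ≤ 3 / 2 * (κ * n) * 4 := mul_le_mul_of_nonneg_left hp4.le (by positivity)
    have h13 : 10 * n * κ = 10 * (κ * n) := by ring
    rw [h13]
    linarith

end Pool.Agent.J4H57.LA
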