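import Mathlib
set_option autoImplicit false

/-! Project LA (helper48, MP_743d1e_nt), piece FIX. -/

namespace Pool.Agent.J4H57.LA

open Filter Topology

theorem fix_exists (f : ℂ → ℂ) (κ : ℝ) (hκ : 0 < κ) (h1 : ∀ v, ‖v‖ ≤ κ → ‖f v‖ ≤ κ / 2)
    (h2 : ∀ v v', ‖v‖ ≤ κ → ‖v'‖ ≤ κ → ‖f v - f v'‖ ≤ ‖v - v'‖ / 2) :
    ∃ v, ‖v‖ ≤ κ ∧ f v = v := by
  have hm : Set.MapsTo f (Metric.closedBall 0 κ) (Metric.closedBall 0 κ) := by
    intro v hv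
    rw [mem_closedBall_zero_iff] at hv ⊢
    have := h1 v hv
    linarith
  have hc : ContractingWith (1 / 2 : NNReal) (hm.restrict f _ _) := by
    refine ⟨by rw [div_lt_one (by norm_num)]; norm_num, LipschitzWith.of_dist_le_mul fun x y => ?_⟩
    have hx := mem_closedBall_zero_iff.1 x.2
    have hy := mem_closedBall_zero_iff.1 y.2
    rw [Subtype.dist_eq, Subtype.dist_eq, Set.MapsTo.val_restrict_apply, Set.MapsTo.val_restrict_apply, dist_eq_norm, dist_eq_norm]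
    have := h2 x y hx hy
    rw [NNReal.coe_div, NNReal.coe_one, NNReal.coe_ofNat]
    linarith
  obtain ⟨y, hy, hf, -⟩ := ContractingWith.exists_fixedPoint' (Metric.isClosed_closedBall.isComplete) hm hc
    (x := (0 : ℂ)) (by simp [hκ.le]) (edist_ne_top _ _)
  exact ⟨y, mem_closedBall_zero_iff.1 hy, hf⟩

theorem fix_unique (f : ℂ → ℂ) (κ : ℝ)
    (h2 : ∀ v v', ‖v‖ ≤ κ → ‖v'‖ ≤ κ → ‖f v - f v'‖ ≤ ‖v - v'‖ / 2) {v v' : ℂ} (hv : ‖v‖ ≤ κ) (hv' : ‖v'‖ ≤ κ)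
    (e : f v = v) (e' : f v' = v') : v = v' := by
  have h := h2 v v' hv hv'
  rw [e, e'] at h
  have h0 := norm_nonneg (v - v')
  have : ‖v - v'‖ = 0 := by linarith
  exact sub_eq_zero.1 (norm_eq_zero.1 this)

theorem fix_smooth (T : ℝ → ℂ → ℂ) (κ : ℝ) (V : ℝ → ℂ)
    (hT : ∀ s v, ‖v‖ < κ → ContDiffAt ℝ 2 (fun y : ℝ × ℂ => T y.1 y.2) (s, v))
    (h2 : ∀ s v v', ‖v‖ ≤ κ → ‖v'‖ ≤ κ → ‖T s v - T s v'‖ ≤ ‖v - v'‖ / 2)
    (hV : ∀ s, ‖V s‖ < κ) (hfix : ∀ s, T s (V s) = V s) : ContDiff ℝ 2 V := by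
  rw [contDiff_iff_contDiffAt]
  intro s
  obtain ⟨D, hD⟩ : ∃ D, HasFDerivAt (fun y : ℝ × ℂ => T y.1 y.2) D (s, V s) :=
    ⟨_, ((hT s (V s) (hV s)).differentiableAt (by norm_num)).hasFDerivAt⟩
  -- the partial derivative is small
  have hpart : ∀ w : ℂ, ‖D (0, w)‖ ≤ ‖w‖ / 2 := by
    have e1 : HasFDerivAt (fun v => T s v) (D.comp (ContinuousLinearMap.inr ℝ ℝ ℂ)) (V s) := by
      have e2 : HasFDerivAt (fun v : ℂ => ((s, v) : ℝ × ℂ)) (ContinuousLinearMap.inr ℝ ℝ ℂ) (V s) := by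
        exact (hasFDerivAt_const s (V s)).prodMk (hasFDerivAt_id (V s))
      exact HasFDerivAt.comp (V s) (g := fun y : ℝ × ℂ => T y.1 y.2) hD e2
    have e3 : LipschitzOnWith (1 / 2 : NNReal) (fun v => T s v) (Metric.closedBall 0 κ) := by
      refine LipschitzOnWith.of_dist_le_mul fun x hx y hy => ?_
      rw [dist_eq_norm, dist_eq_norm, NNReal.coe_div, NNReal.coe_one, NNReal.coe_ofNat]
      have := h2 s x y (mem_closedBall_zero_iff.1 hx) (mem_closedBall_zero_iff.1 hy)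
      linarith
    have e4 : Metric.closedBall (0 : ℂ) κ ∈ 𝓝 (V s) := by
      refine mem_of_superset (Metric.isOpen_ball.mem_nhds ?_) Metric.ball_subset_closedBall
      rw [mem_ball_zero_iff]
      exact hV s
    have e5 := e1.le_of_lipschitzOn e4 e3
    intro w
    have e6 := (D.comp (ContinuousLinearMap.inr ℝ ℝ ℂ)).le_of_opNorm_le e5 w
    simp only [ContinuousLinearMap.comp_apply, ContinuousLinearMap.inr_apply, NNReal.coe_div, NNReal.coe_one,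
      NNReal.coe_ofNat] at e6
    linarith
  obtain ⟨Φ, hΦ⟩ : ∃ Φ : ℝ × ℂ → ℝ × ℂ, Φ = fun y => (y.1, y.2 - T y.1 y.2) := ⟨_, rfl⟩
  have hΦc : ContDiffAt ℝ 2 Φ (s, V s) := by
    rw [hΦ]
    exact contDiffAt_fst.prodMk (contDiffAt_snd.sub (hT s (V s) (hV s)))
  have hΦv : Φ (s, V s) = (s, 0) := by
    rw [hΦ]
    simp [hfix]
  obtain ⟨L, hL⟩ : ∃ L : (ℝ × ℂ) →L[ℝ] (ℝ × ℂ), L = (ContinuousLinearMap.fst ℝ ℝ ℂ).prod (ContinuousLinearMap.snd ℝ ℝ ℂ - D) := ⟨_, rfl⟩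
  have hΦL : HasFDerivAt Φ L (s, V s) := by
    rw [hΦ, hL]
    exact hasFDerivAt_fst.prodMk (hasFDerivAt_snd.sub hD)
  have hinj : Function.Injective L := by
    rw [injective_iff_map_eq_zero]
    rintro ⟨h, w⟩ he
    rw [hL] at he
    simp only [ContinuousLinearMap.prod_apply, ContinuousLinearMap.coe_fst', sub_apply,
      ContinuousLinearMap.coe_snd', Prod.mk_eq_zero] at he
    obtain ⟨he1, he2⟩ := he
    subst he1
    have e1 : w = D (0, w) := sub_eq_zero.1 he2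
    have e2 := hpart w
    rw [← e1] at e2
    have e3 := norm_nonneg w
    have e4 : ‖w‖ = 0 := by linarith
    rw [norm_eq_zero.1 e4]
    rfl
  obtain ⟨e, he⟩ : ∃ e : (ℝ × ℂ) ≃L[ℝ] (ℝ × ℂ), (e : (ℝ × ℂ) →L[ℝ] (ℝ × ℂ)) = L := by
    refine ⟨(LinearEquiv.ofInjectiveEndo L.toLinearMap hinj).toContinuousLinearEquiv, ?_⟩
    ext x <;> rfl
  rw [← he] at hΦL
  have hn : (2 : WithTop ℕ∞) ≠ 0 := by norm_num
  have hΨc : ContDiffAt ℝ 2 (hΦc.localInverse hΦL hn) (s, 0) := by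
    have := hΦc.to_localInverse hΦL hn
    rwa [hΦv] at this
  have hΨ0 : hΦc.localInverse hΦL hn (s, 0) = (s, V s) := by
    have := hΦc.localInverse_apply_image hΦL hn
    rwa [hΦv] at this
  have hright : ∀ᶠ ζ in 𝓝 ((s, 0) : ℝ × ℂ), Φ (hΦc.localInverse hΦL hn ζ) = ζ := by
    have := (hΦc.hasStrictFDerivAt' hΦL hn).eventually_right_inverse
    rwa [hΦv] at this
  generalize hΦc.localInverse hΦL hn = Ψ at hΨc hΨ0 hright
  have hι : ContDiffAt ℝ 2 (fun x : ℝ => ((x, 0) : ℝ × ℂ)) s := contDiffAt_id.prodMk contDiffAt_const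
  have hW : ContDiffAt ℝ 2 (fun x : ℝ => (Ψ (x, 0)).2) s := (hΨc.comp s hι).snd
  refine hW.congr_of_eventuallyEq ?_
  have h3 : ∀ᶠ x in 𝓝 s, Φ (Ψ (x, 0)) = (x, 0) := hι.continuousAt.eventually hright
  have h4 : ∀ᶠ x in 𝓝 s, ‖(Ψ (x, 0)).2‖ < κ := by
    have : ‖(Ψ (s, 0)).2‖ < κ := by
      rw [hΨ0]
      exact hV s
    exact hW.continuousAt.norm.eventually_lt continuousAt_const this
  filter_upwards [h3, h4] with x hx3 hx4
  rw [hΦ] at hx3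
  have hx5 := (Prod.ext_iff.1 hx3).1
  have hx6 := (Prod.ext_iff.1 hx3).2
  simp only at hx5 hx6
  rw [hx5] at hx6
  exact fix_unique (T x) κ (h2 x) (hV x).le hx4.le (hfix x) (sub_eq_zero.1 hx6).symm

theorem fix (T : ℝ → ℂ → ℂ) (κ : ℝ) (hκ : 0 < κ)
  (hT : ∀ s v, ‖v‖ < κ → ContDiffAt ℝ 2 (fun y : ℝ × ℂ => T y.1 y.2) (s, v))
  (h1 : ∀ s v, ‖v‖ ≤ κ → ‖T s v‖ ≤ κ / 2)
  (h2 : ∀ s v v', ‖v‖ ≤ κ → ‖v'‖ ≤ κ → ‖T s v - T s v'‖ ≤ ‖v - v'‖ / 2)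
  (h3 : ∀ s v, ‖v‖ ≤ κ → T (s + 1) v = T s v) :
  ∃ V : ℝ → ℂ, ContDiff ℝ 2 V ∧ (∀ s, V (s + 1) = V s) ∧ (∀ s, ‖V s‖ ≤ κ / 2) ∧
    ∀ s, T s (V s) = V s := by
  choose V hV hVf using fun s => fix_exists (T s) κ hκ (h1 s) (h2 s)
  have hV2 : ∀ s, ‖V s‖ ≤ κ / 2 := fun s => by
    rw [← hVf s]
    exact h1 s _ (hV s)
  refine ⟨V, fix_smooth T κ V hT h2 (fun s => by have := hV2 s; linarith) hVf, fun s => ?_, hV2, hVf⟩
  refine fix_unique (T s) κ (h2 s) (hV _) (hV _) ?_ (hVf s)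
  rw [← h3 s _ (hV _)]
  exact hVf (s + 1)

end Pool.Agent.J4H57.LA
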