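import Pool.Agent.J4H48.LA.Stm
import Pool.Agent.J4H57.LA.FixCore
set_option autoImplicit false

/-! Project LA (helper48, MP_743d1e_nt), piece FIX. -/

namespace Pool.Agent.J4H57.LA

theorem t_FIX : Pool.Agent.J4H48.LA.S_FIX := fix

end Pool.Agent.J4H57.LA
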